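import Pool.Agent.U339.EL.B

/-!
The pointwise ergodic theorem along the level sets of the total stopping time of the Collatz function.
-/

set_option autoImplicit false

namespace Pool.Agent.Results.MP_e43fce_nt.ErgodicLevels

open Finset Filter Topology MeasureTheory

/-- the Collatz function -/
def C (n : ℕ) : ℕ := if n % 2 = 0 then n / 2 else 3 * n + 1

/-- the total stopping time `l(n)`, the least `k ≥ 0` with `C^k(n) = 1`, and `⊤ = ∞` if there is none -/
noncomputable def l (n : ℕ) : ℕ∞ := sInf {k : ℕ∞ | ∃ j : ℕ, C^[j] n = 1 ∧ k = j}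

/-- `n` is an exception to the inequality `l(n) ≤ n`. -/
def Exceptional (n : ℕ) : Prop := (n : ℕ∞) < l n

/-- the accelerated Collatz function -/
def T (n : ℕ) : ℕ := if n % 2 = 0 then n / 2 else (3 * n + 1) / 2

/-- the number of the odd terms among `n, T n, ..., T^(t-1) n` -/
def odds (t n : ℕ) : ℕ := ((Finset.range t).filter fun i => T^[i] n % 2 = 1).card

/-- `Φ` has the same value at `m` and `n` if for some `t` the trajectories of `m, n ≥ 2 ^ t` meet at the
time `t` after the same number of odd terms. -/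
def Sync {α : Type} (Φ : ℕ → α) : Prop := ∀ t m n : ℕ, 2 ^ t ≤ m → 2 ^ t ≤ n → T^[t] m = T^[t] n →
  odds t m = odds t n → Φ m = Φ n

open Classical in
/-- `∑_y ‖∑_{n ≤ N, Φ(n) = y} v(n)‖`, over all values `y` of `Φ` on `[1, N]`. -/
noncomputable def spread {α E : Type} [NormedAddCommGroup E] (N : ℕ) (Φ : ℕ → α) (v : ℕ → E) : ℝ :=
  ∑ y ∈ (Icc 1 N).image Φ, ‖∑ n ∈ Icc 1 N with Φ n = y, v n‖

/-- `|k - μ log N| ≤ K √(log N)` with `μ = 3 / log (4/3)`, the normal order of `l` -/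
def Bulk (K : ℝ) (k N : ℕ) : Prop := |(k : ℝ) - 3 / Real.log (4 / 3) * Real.log N| ≤ K * √ (Real.log N)

open Classical in
/-- the level: the `1 ≤ n ≤ N` with `l(n) = k` -/
noncomputable def level (k N : ℕ) : Finset ℕ := {n ∈ Icc 1 N | l n = (k : ℕ∞)}

open Classical in
/-- THE POINTWISE ERGODIC THEOREM ALONG THE LEVELS OF THE TOTAL STOPPING TIME `l`. Let `R` preserve the
probability measure `ρ`, `f` be integrable, `f*` the conditional expectation of `f` on the invariant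
sets. (0) `l` is a synchronous function (`Sync`), and so is every function of a synchronous function.
(1) For almost all `x` the total deviation of the sums of `f` over the pieces `{n ≤ N : Φ(n) = y}` is
`o(N)`: `∑_y |∑_{n ≤ N, Φ(n) = y} (f(R^n x) - f*(x))| ≤ ε N` for all `N ≥ N₀(x, ε)`, uniformly over ALL
synchronous functions `Φ` (with values in any set), whatever the number of the pieces.
(2) For `Φ = l`: for almost all `x`, for all `K`, `ε`, for large `N`, the averages of `f(R^n x)` over the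
level `{n ≤ N : l(n) = k}` are within `ε` of `f*(x)` for all but `ε √(log N)` of the `k` with
`|k - μ log N| ≤ K √(log N)`, and all these levels have at least `c N / √(log N)` elements.
(3) RATE. For every sequence `v` with `‖v n‖ ≤ 1` in a normed space, whose partial sums are bounded by
`B`, the sum of the norms of the sums of `v` over the pieces `{n ≤ N : Φ(n) = y}` is at most
`C √(log (2 + B)) (log log N / √(log N)) N`, uniformly over all synchronous functions `Φ`.
(4) CRITERION. Let `R` be ergodic, `f ≥ 0` and `∫ f > 0`. For almost all `x`: `l(n)` is finite for all `n`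
if and only if for all `ε > 0` the sum of `f(R^n x)` over the exceptions `n ≤ N` to `l(n) ≤ n` is at most
`ε N` for infinitely many `N`, and then it is so for all large `N`. -/
theorem result :
    (Sync l ∧ ∀ (α β : Type) (Φ : ℕ → α) (g : α → β), Sync Φ → Sync (fun n => g (Φ n))) ∧
    (∀ (X : Type) [MeasurableSpace X] (ρ : Measure X) [IsProbabilityMeasure ρ] (R : X → X),
      MeasurePreserving R ρ ρ → ∀ f : X → ℝ, Measurable f → Integrable f ρ →
      ∀ᵐ x ∂ρ, ∀ ε : ℝ, 0 < ε → ∃ N₀ : ℕ, ∀ N : ℕ, N₀ ≤ N → ∀ (α : Type) (Φ : ℕ → α), Sync Φ →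
        spread N Φ (fun n => f (R^[n] x) - (ρ[f | MeasurableSpace.invariants R]) x) ≤ ε * N) ∧
    ((∀ K : ℝ, ∃ c : ℝ, 0 < c ∧ ∃ N₀ : ℕ, ∀ N : ℕ, N₀ ≤ N → ∀ k : ℕ, Bulk K k N →
        c * (N / √ (Real.log N)) ≤ #(level k N)) ∧
      ∀ (X : Type) [MeasurableSpace X] (ρ : Measure X) [IsProbabilityMeasure ρ] (R : X → X),
      MeasurePreserving R ρ ρ → ∀ f : X → ℝ, Measurable f → Integrable f ρ →
      ∀ᵐ x ∂ρ, ∀ K ε : ℝ, 0 < ε → ∃ N₀ : ℕ, ∀ N : ℕ, N₀ ≤ N →
        ({k : ℕ | Bulk K k N ∧ ε * #(level k N) <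
          |∑ n ∈ level k N, (f (R^[n] x) - (ρ[f | MeasurableSpace.invariants R]) x)|}.ncard : ℝ) ≤
            ε * √ (Real.log N)) ∧
    (∃ C : ℝ, 0 < C ∧ ∀ N : ℕ, 16 ≤ N → ∀ (α : Type) (Φ : ℕ → α), Sync Φ →
      ∀ (E : Type) [NormedAddCommGroup E] [NormedSpace ℝ E] (v : ℕ → E) (B : ℝ),
        (∀ n, ‖v n‖ ≤ 1) → (∀ n, ‖∑ i ∈ range n, v i‖ ≤ B) →
        spread N Φ v ≤ C * (√ (Real.log (2 + B)) * (Real.log (Real.log N) / √ (Real.log N)) * N)) ∧
    (∀ (X : Type) [MeasurableSpace X] (ρ : Measure X) [IsProbabilityMeasure ρ] (R : X → X),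
      Ergodic R ρ → ∀ f : X → ℝ, Measurable f → Integrable f ρ → (∀ x, 0 ≤ f x) → 0 < ∫ x, f x ∂ρ →
      ∀ᵐ x ∂ρ,
        ((∀ n : ℕ, 1 ≤ n → l n ≠ ⊤) ↔ ∀ ε : ℝ, 0 < ε → ∃ᶠ N : ℕ in atTop,
          ∑ n ∈ Icc 1 N with Exceptional n, f (R^[n] x) ≤ ε * N) ∧
        ((∀ n : ℕ, 1 ≤ n → l n ≠ ⊤) ↔ ∀ ε : ℝ, 0 < ε → ∃ N₀ : ℕ, ∀ N : ℕ, N₀ ≤ N →
          ∑ n ∈ Icc 1 N with Exceptional n, f (R^[n] x) ≤ ε * N)) := by
  refine ⟨⟨fun t m n => Pool.Agent.U339.EL.ell_sync t m n, fun α β Φ g h t m n h1 h2 h3 h4 =>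
    congrArg g (h t m n h1 h2 h3 h4)⟩, ?_, ⟨?_, ?_⟩, ?_, ?_⟩
  · intro X _ ρ _ R hR f hf hi
    filter_upwards [Pool.Agent.U339.CE.reg_orbit hR hf hi] with x hx ε hε
    obtain ⟨N0, h⟩ := Pool.Agent.U339.EL.spread_small hx hε
    exact ⟨N0, fun N hN α Φ hΦ => h N hN α Φ hΦ⟩
  · intro K
    obtain ⟨c, N0, hc, _, h⟩ := Pool.Agent.U339.EL.LC_low K
    exact ⟨c, hc, N0, h⟩
  · intro X _ ρ _ R hR f hf hi
    filter_upwards [Pool.Agent.U339.CE.reg_orbit hR hf hi] with x hx K ε hε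
    exact Pool.Agent.U339.EL.bulkC hx K hε
  · obtain ⟨C, hC, h⟩ := Pool.Agent.U339.EL.partial_spread
    exact ⟨C, hC, fun N hN α Φ hΦ E _ _ v B hv hB => h N hN α Φ hΦ E v B hv hB⟩
  · intro X _ ρ _ R hR f hf hi h0 hpos
    have hce : ∀ᵐ x ∂ρ, (ρ[f | MeasurableSpace.invariants R]) x = ∫ x, f x ∂ρ := by
      have hm : StronglyMeasurable[MeasurableSpace.invariants R] (ρ[f | MeasurableSpace.invariants R]) :=
        stronglyMeasurable_condExp
      have hinv : (ρ[f | MeasurableSpace.invariants R]) ∘ R = ρ[f | MeasurableSpace.invariants R] :=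
        MeasurableSpace.comp_eq_of_measurable_invariants hm.measurable
      obtain ⟨c, hc⟩ := hR.ae_eq_const_of_ae_eq_comp_ae
        (hm.mono (MeasurableSpace.invariants_le R)).aestronglyMeasurable
        (Eventually.of_forall fun x => congrFun hinv x)
      have h2 : ∫ y, f y ∂ρ = c := by
        rw [← integral_condExp (MeasurableSpace.invariants_le R) (f := f), integral_congr_ae hc]
        simp
      filter_upwards [hc] with x hx
      rw [hx, h2]
      rfl
    filter_upwards [Pool.Agent.U339.CE.reg_orbit hR.toMeasurePreserving hf hi, hce] with x hx hc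
    rw [hc] at hx
    obtain ⟨h1, h2⟩ := Pool.Agent.U339.EL.critC hpos hx (fun n => h0 _)
    refine ⟨⟨fun h ε hε => ?_, h2⟩, ⟨h1, fun h => h2 fun ε hε => ?_⟩⟩
    · obtain ⟨N0, h3⟩ := h1 h ε hε
      exact (eventually_atTop.2 ⟨N0, h3⟩).frequently
    · obtain ⟨N0, h3⟩ := h ε hε
      exact (eventually_atTop.2 ⟨N0, h3⟩).frequently

end Pool.Agent.Results.MP_e43fce_nt.ErgodicLevels
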