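import Pool.Agent.U59.HX.L

/-!
# Stopping times of the `3x+1` map and the number of integers with a large hitting density

Let `D a` be the natural density of the positive integers whose accelerated trajectory contains `a`, `N(ε)` the
number of `a` with `D a ≥ ε`, and `L(n)` the number of distinct terms of the accelerated trajectory of `n`. Then
`L(n) ≤ N(κ / n) + log n / log 2 + 1` and `N(ε)` is at most the sum of the `L(z)`, `z ≤ (C / ε) ^ (50 / 3)`. So
`L` is polynomially bounded if and only if `N` is, and Q1 is between two bounds for `N`.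
-/

set_option autoImplicit false

namespace Pool.Agent.Results.MP_e43fce_nt.HittingDensities

open Filter Topology

/-- the accelerated `3x+1` map -/
def T (n : ℕ) : ℕ := if n % 2 = 0 then n / 2 else (3 * n + 1) / 2

/-- the Collatz function -/
def Col (n : ℕ) : ℕ := if n % 2 = 0 then n / 2 else 3 * n + 1

/-- the terms of the accelerated trajectory of `n` -/
def traj (n : ℕ) : Set ℕ := {b : ℕ | ∃ k : ℕ, T^[k] n = b}

/-- `S` has natural density `δ` among the positive integers -/
def HasDensity (S : Set ℕ) (δ : ℝ) : Prop :=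
  Tendsto (fun N : ℕ => ({n : ℕ | 1 ≤ n ∧ n ≤ N ∧ n ∈ S}.ncard : ℝ) / N) atTop (𝓝 δ)

/-- `S` is finite with at most `B` elements -/
def AtMost (S : Set ℕ) (B : ℝ) : Prop := S.Finite ∧ (S.ncard : ℝ) ≤ B

/-- the positive integers `a` with `D a ≥ ε` -/
def Large (D : ℕ → ℝ) (ε : ℝ) : Set ℕ := {a : ℕ | 1 ≤ a ∧ ε ≤ D a}

/-- the elements of the cycles of positive integers are `1` and `2` -/
def NoOtherCycle : Prop := ∀ z p : ℕ, 1 ≤ z → 1 ≤ p → T^[p] z = z → z ≤ 2

/-- **Theorem.** The positive integers whose trajectory contains `a` have a natural density `D a`, and there are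
`κ, C > 0` such that, with `N(ε)` the number of `a ≥ 1` with `D a ≥ ε` and `L(n)` the number of distinct terms of
the trajectory of `n`:
(1) `L(n) ≤ N(κ / n) + log₂ n + 1` for all `n ≥ 1`;
(2) every `a ≥ 1` with `D a ≥ ε` is in the trajectory of some `z ≤ (C / ε) ^ (50 / 3)`; so
`N(ε) ≤ (C / ε) ^ (50 / 3) max L(z)`, the maximum over these `z`;
(3) `L(n) ≤ K n ^ g` for some `K`, `g` and all `n ≥ 1` if and only if `N(ε) ≤ K ε ^ (-h)` for some `K`, `h` and all
`0 < ε ≤ 1`;
(4) if there is no other cycle of positive integers and `ε N(ε) → 0` then `l(n) / n → 0`; in particular Q1 holds;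
(5) if Q1 holds then there is no other cycle of positive integers and `N(ε) ≤ K ε ^ (-34)` for `0 < ε ≤ 1`. -/
theorem result : ∃ (D : ℕ → ℝ) (κ C : ℝ), 0 < κ ∧ 0 < C ∧ (∀ a, HasDensity {n | a ∈ traj n} (D a)) ∧
    (∀ (n : ℕ) (B : ℝ), 1 ≤ n → AtMost (Large D (κ / n)) B → AtMost (traj n) (B + (Nat.log 2 n + 1))) ∧
    (∀ ε : ℝ, 0 < ε → Large D ε ⊆ ⋃ z ∈ {z : ℕ | 1 ≤ z ∧ (z : ℝ) ≤ (C / ε) ^ (50 / 3 : ℝ)}, traj z) ∧
    (∀ ε B : ℝ, 0 < ε → 0 ≤ B → (∀ z : ℕ, 1 ≤ z → (z : ℝ) ≤ (C / ε) ^ (50 / 3 : ℝ) → AtMost (traj z) B) →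
      AtMost (Large D ε) ((C / ε) ^ (50 / 3 : ℝ) * B)) ∧
    ((∃ g K : ℝ, ∀ n : ℕ, 1 ≤ n → AtMost (traj n) (K * (n : ℝ) ^ g)) ↔
      ∃ h K : ℝ, ∀ ε : ℝ, 0 < ε → ε ≤ 1 → AtMost (Large D ε) (K * ε ^ (-h))) ∧
    (NoOtherCycle → (∀ δ : ℝ, 0 < δ → ∃ ε₀ : ℝ, 0 < ε₀ ∧ ∀ ε : ℝ, 0 < ε → ε < ε₀ →
        AtMost (Large D ε) (δ / ε)) →
      ∀ δ : ℝ, 0 < δ → ∃ N₀ : ℕ, ∀ n ≥ N₀, ∃ k : ℕ, (k : ℝ) ≤ δ * n ∧ Col^[k] n = 1) ∧
    ((∃ N₀ : ℕ, ∀ n ≥ N₀, ∃ k : ℕ, k ≤ n ∧ Col^[k] n = 1) →
      NoOtherCycle ∧ ∃ K : ℝ, ∀ ε : ℝ, 0 < ε → ε ≤ 1 → AtMost (Large D ε) (K * ε ^ (-34 : ℝ))) := by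
  classical
  obtain ⟨D, κ', C, hκ', hC, hD, h01, hup, hlow', -⟩ := Pool.Agent.U59.HX.mainN
  have hC0 : 0 < C := by linarith
  set κ : ℝ := min κ' 1 with hκdef
  have hκ : 0 < κ := lt_min hκ' one_pos
  have hκ1 : κ ≤ 1 := min_le_right _ _
  have hlow : ∀ a n : ℕ, ¬ 3 ∣ a → 1 ≤ n → a ∈ Pool.Agent.U59.HX.tr n → κ / n ≤ D a := by
    intro a n h1 h2 h3
    refine le_trans ?_ (hlow' a n h1 h2 h3)
    exact div_le_div_of_nonneg_right (min_le_left _ _) (Nat.cast_nonneg _)
  have r1 : ∀ (n : ℕ) (B : ℝ), 1 ≤ n → AtMost (Large D (κ / n)) B →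
      AtMost (traj n) (B + (Nat.log 2 n + 1)) := fun n B hn hB =>
    Pool.Agent.U59.HX.short_of_few hlow hn hB
  have r3 : ∀ ε B : ℝ, 0 < ε → 0 ≤ B → (∀ z : ℕ, 1 ≤ z → (z : ℝ) ≤ (C / ε) ^ (50 / 3 : ℝ) →
      AtMost (traj z) B) → AtMost (Large D ε) ((C / ε) ^ (50 / 3 : ℝ) * B) := fun ε B hε hB h =>
    Pool.Agent.U59.HX.few_of_short hC h01 hup hε hB h
  have hlog : ∀ n : ℕ, 1 ≤ n → (Nat.log 2 n : ℝ) ≤ n := by
    intro n hn
    exact_mod_cast (Nat.log_lt_self 2 (by omega)).le
  have amono : ∀ {S : Set ℕ} {B B' : ℝ}, AtMost S B → B ≤ B' → AtMost S B' := fun h hB => ⟨h.1, h.2.trans hB⟩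
  refine ⟨D, κ, C, hκ, hC0, hD, r1, fun ε hε => Pool.Agent.U59.HX.large_sub hC h01 hup hε, r3,
    ⟨?_, ?_⟩, ?_, ?_⟩
  · -- short trajectories give few large densities
    rintro ⟨g, K, hK⟩
    set g' : ℝ := max g 0 with hg'
    have hg0 : 0 ≤ g' := le_max_right _ _
    have hK0 : 0 ≤ K := by
      have h1 := (hK 1 le_rfl).2
      rw [Nat.cast_one, Real.one_rpow, mul_one] at h1
      exact (Nat.cast_nonneg _).trans h1
    refine ⟨50 / 3 * (1 + g'), C ^ (50 / 3 * (1 + g') : ℝ) * K, fun ε hε hε1 => ?_⟩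
    have hCε : 0 < C / ε := by positivity
    set W : ℝ := (C / ε) ^ (50 / 3 : ℝ) with hW
    have hW0 : 0 < W := by positivity
    have h1 := r3 ε (K * W ^ g') hε (by positivity) (by
      intro z hz hzW
      have hz1 : (1 : ℝ) ≤ z := by exact_mod_cast hz
      apply amono (hK z hz)
      apply mul_le_mul_of_nonneg_left _ hK0
      calc (z : ℝ) ^ g ≤ (z : ℝ) ^ g' := Real.rpow_le_rpow_of_exponent_le hz1 (le_max_left _ _)
        _ ≤ W ^ g' := Real.rpow_le_rpow (by linarith) hzW hg0)
    apply amono h1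
    apply le_of_eq
    have e1 : W * (K * W ^ g') = K * W ^ (1 + g') := by
      rw [Real.rpow_add hW0, Real.rpow_one]; ring
    have e2 : W ^ (1 + g') = C ^ (50 / 3 * (1 + g') : ℝ) * ε ^ (-(50 / 3 * (1 + g')) : ℝ) := by
      rw [hW, ← Real.rpow_mul hCε.le, Real.div_rpow hC0.le hε.le, Real.rpow_neg hε.le, div_eq_mul_inv]
    rw [← hW, e1, e2]
    ring
  · rintro ⟨h, K, hK⟩
    set h' : ℝ := max h 1 with hh'
    have hh1 : 1 ≤ h' := le_max_right _ _
    have hK0 : 0 ≤ K := by
      have h1 := (hK 1 one_pos le_rfl).2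
      rw [Real.one_rpow, mul_one] at h1
      exact (Nat.cast_nonneg _).trans h1
    refine ⟨h', K * κ ^ (-h) + 2, fun n hn => ?_⟩
    have hnR : (1 : ℝ) ≤ n := by exact_mod_cast hn
    have hn0 : (0 : ℝ) < n := by linarith
    have h1 := hK (κ / n) (by positivity) (by rw [div_le_one hn0]; linarith)
    have h2 := r1 n _ hn h1
    apply amono h2
    have h3 : (κ / (n : ℝ)) ^ (-h) = κ ^ (-h) * (n : ℝ) ^ h := by
      rw [Real.div_rpow hκ.le hn0.le, Real.rpow_neg hn0.le, div_inv_eq_mul]
    have h4 : (n : ℝ) ^ h ≤ (n : ℝ) ^ h' := Real.rpow_le_rpow_of_exponent_le hnR (le_max_left _ _)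
    have h5 : (n : ℝ) ≤ (n : ℝ) ^ h' := by
      calc (n : ℝ) = (n : ℝ) ^ (1 : ℝ) := (Real.rpow_one _).symm
        _ ≤ _ := Real.rpow_le_rpow_of_exponent_le hnR hh1
    have h6 : K * (κ ^ (-h) * (n : ℝ) ^ h) ≤ K * κ ^ (-h) * (n : ℝ) ^ h' := by
      rw [mul_assoc]
      apply mul_le_mul_of_nonneg_left _ hK0
      exact mul_le_mul_of_nonneg_left h4 (Real.rpow_nonneg hκ.le _)
    have h7 := hlog n hn
    rw [h3]
    linarith
  · -- the criterion
    intro hcyc hN δ hδ
    obtain ⟨ε₀, hε₀, hN'⟩ := hN (δ * κ / 8) (by positivity)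
    obtain ⟨N₁, hN₁⟩ := exists_nat_gt (κ / ε₀)
    -- `log₂ n + 1 ≤ δ n / 8`
    have hlg : ∀ᶠ n : ℕ in atTop, (Nat.log 2 n : ℝ) + 1 ≤ δ / 8 * n := by
      have h1 : Tendsto (fun N : ℕ => (Real.log (N : ℝ) / (N : ℝ)) / Real.log 2 + 1 / (N : ℝ)) atTop
          (𝓝 (0 / Real.log 2 + 0)) := by
        apply Tendsto.add
        · apply Tendsto.div_const
          have := Real.isLittleO_log_id_atTop.tendsto_div_nhds_zero
          exact this.comp tendsto_natCast_atTop_atTop
        · exact tendsto_one_div_atTop_nhds_zero_nat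
      rw [zero_div, add_zero] at h1
      filter_upwards [h1.eventually (gt_mem_nhds (show (0 : ℝ) < δ / 8 by positivity)),
        eventually_gt_atTop 0] with n hn hn0
      have hnR : (0 : ℝ) < n := by exact_mod_cast hn0
      have h2 : (Nat.log 2 n : ℝ) ≤ Real.log n / Real.log 2 := by
        have := Real.natLog_le_logb n 2
        simpa [Real.logb] using this
      have h3 : (Real.log n / n / Real.log 2 + 1 / n) * n = Real.log n / Real.log 2 + 1 := by
        field_simp
      have h4 := mul_lt_mul_of_pos_right hn hnR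
      rw [h3] at h4
      linarith
    obtain ⟨N₂, hN₂⟩ := eventually_atTop.1 hlg
    refine ⟨max (max N₁ N₂) 1, fun n hn => ?_⟩
    have hn1 : 1 ≤ n := le_trans (le_max_right _ _) hn
    have hnN1 : N₁ ≤ n := le_trans (le_trans (le_max_left _ _) (le_max_left _ _)) hn
    have hnN2 : N₂ ≤ n := le_trans (le_trans (le_max_right _ _) (le_max_left _ _)) hn
    have hnR : (0 : ℝ) < n := by exact_mod_cast hn1
    have h1 : κ / n < ε₀ := by
      have h2 : (N₁ : ℝ) ≤ n := by exact_mod_cast hnN1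
      rw [div_lt_iff₀ hnR]
      rw [div_lt_iff₀ hε₀] at hN₁
      nlinarith
    have h2 := r1 n _ hn1 (hN' (κ / n) (by positivity) h1)
    have h3 : δ * κ / 8 / (κ / n) + (Nat.log 2 n + 1) ≤ δ / 4 * n := by
      have e : δ * κ / 8 / (κ / n) = δ / 8 * n := by field_simp
      rw [e]
      linarith [hN₂ n hnN2]
    obtain ⟨m, hm, hm1⟩ := Pool.Agent.U59.HX.reach_of_finite hcyc hn1 (amono h2 h3)
    obtain ⟨k, hk, hk1⟩ := Pool.Agent.U59.HX.Cn_iter m n
    refine ⟨k, ?_, hk1.trans hm1⟩
    have h4 : (k : ℝ) ≤ 2 * m := by exact_mod_cast hk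
    have h5 : 0 ≤ δ * n := by positivity
    linarith
  · rintro ⟨N₀, hN₀⟩
    -- every positive integer reaches `1`
    have hdbl : ∀ j n : ℕ, Col^[j] (2 ^ j * n) = n := by
      intro j
      induction j with
      | zero => intro n; simp
      | succ j ih =>
        intro n
        rw [Function.iterate_succ_apply]
        have e : Col (2 ^ (j + 1) * n) = 2 ^ j * n := by
          unfold Col
          have h1 : 2 ^ (j + 1) * n = 2 * (2 ^ j * n) := by ring
          rw [h1, if_pos (by omega)]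
          omega
        rw [e, ih]
    have hhalf : ∀ k j n : ℕ, k ≤ j → Col^[k] (2 ^ j * n) = 2 ^ (j - k) * n := by
      intro k j n hkj
      have h1 : 2 ^ j * n = 2 ^ k * (2 ^ (j - k) * n) := by
        rw [← mul_assoc, ← pow_add]; congr 2; omega
      rw [h1, hdbl]
    have hone : ∀ j : ℕ, ∃ i : ℕ, Col^[i] (Col^[j] 1) = 1 := by
      intro j
      have hc : ∀ j : ℕ, Col^[j] 1 = 1 ∨ Col^[j] 1 = 4 ∨ Col^[j] 1 = 2 := by
        intro j
        induction j with
        | zero => simp
        | succ j ih =>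
          rw [Function.iterate_succ_apply']
          rcases ih with h | h | h <;> rw [h] <;> simp [Col]
      rcases hc j with h | h | h
      · exact ⟨0, by rw [h]; rfl⟩
      · exact ⟨2, by rw [h]; rfl⟩
      · exact ⟨1, by rw [h]; rfl⟩
    have hall : ∀ n : ℕ, 1 ≤ n → ∃ k : ℕ, Col^[k] n = 1 := by
      intro n hn
      obtain ⟨j, hj⟩ : ∃ j : ℕ, N₀ ≤ 2 ^ j * n := by
        refine ⟨N₀, ?_⟩
        have h1 : N₀ < 2 ^ N₀ := Nat.lt_two_pow_self
        calc N₀ ≤ 2 ^ N₀ := h1.le
          _ ≤ 2 ^ N₀ * n := Nat.le_mul_of_pos_right _ hn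
      obtain ⟨k, -, hk⟩ := hN₀ _ hj
      rcases Nat.le_total k j with hkj | hkj
      · rw [hhalf k j n hkj] at hk
        have h1 : n = 1 := Nat.eq_one_of_mul_eq_one_left hk
        exact ⟨0, h1⟩
      · obtain ⟨i, rfl⟩ := Nat.exists_eq_add_of_le hkj
        rw [add_comm, Function.iterate_add_apply, hdbl] at hk
        exact ⟨i, hk⟩
    constructor
    · intro z p hz hp hzp
      obtain ⟨k, hk⟩ := hall z hz
      -- the orbit of `z` under `T` is periodic and contains `1`
      have h1 : ∃ m : ℕ, T^[m] z = 1 ∨ T^[m] z = 2 := by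
        have h2 := Pool.Agent.U59.HX.tr_sub_C hk
        -- induction on the number of Collatz steps
        have key : ∀ k : ℕ, ∀ w : ℕ, Col^[k] w = 1 → ∃ m : ℕ, T^[m] w = 1 ∨ T^[m] w = 2 := by
          intro k
          induction k using Nat.strong_induction_on with
          | _ k ih =>
            intro w hw
            rcases k with _ | k
            · exact ⟨0, Or.inl hw⟩
            · by_cases hev : w % 2 = 0
              · rw [Function.iterate_succ_apply] at hw
                have e : Col w = T w := by unfold Col T; rw [if_pos hev, if_pos hev]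
                rw [e] at hw
                obtain ⟨m, hm⟩ := ih k (by omega) (T w) hw
                exact ⟨m + 1, by rw [Function.iterate_succ_apply]; exact hm⟩
              · rcases k with _ | k
                · rw [Function.iterate_one] at hw
                  unfold Col at hw
                  rw [if_neg hev] at hw
                  omega
                · rw [Function.iterate_succ_apply, Function.iterate_succ_apply] at hw
                  have e : Col (Col w) = T w := by
                    have e1 : Col w = 3 * w + 1 := by unfold Col; rw [if_neg hev]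
                    rw [e1]
                    unfold Col T
                    rw [if_pos (by omega), if_neg hev]
                  rw [e] at hw
                  obtain ⟨m, hm⟩ := ih k (by omega) (T w) hw
                  exact ⟨m + 1, by rw [Function.iterate_succ_apply]; exact hm⟩
        exact key k z hk
      obtain ⟨m, hm⟩ := h1
      have hper : ∀ q : ℕ, T^[q * p] z = z := by
        intro q
        induction q with
        | zero => simp
        | succ q ih => rw [Nat.succ_mul, Function.iterate_add_apply, hzp, ih]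
      have hstay : ∀ i w : ℕ, (w = 1 ∨ w = 2) → (T^[i] w = 1 ∨ T^[i] w = 2) := by
        intro i
        induction i with
        | zero => intro w hw; exact hw
        | succ i ih =>
          intro w hw
          rw [Function.iterate_succ_apply]
          apply ih
          rcases hw with rfl | rfl
          · right; rfl
          · left; rfl
      have h2 := hstay (m * p - m) _ hm
      rw [← Function.iterate_add_apply, Nat.sub_add_cancel (Nat.le_mul_of_pos_right _ hp), hper] at h2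
      rcases h2 with h | h <;> omega
    · -- the bound
      have hch : ∀ n : ℕ, ∃ k : ℕ, 1 ≤ n → Col^[k] n = 1 := by
        intro n
        by_cases hn : 1 ≤ n
        · obtain ⟨k, hk⟩ := hall n hn
          exact ⟨k, fun _ => hk⟩
        · exact ⟨0, fun h => absurd h hn⟩
      choose f hf using hch
      set K₁ : ℕ := (Finset.range N₀).sup f with hK₁
      have hbd : ∀ n : ℕ, 1 ≤ n → AtMost (traj n) (n + K₁ + 4) := by
        intro n hn
        rcases Nat.lt_or_ge n N₀ with h | h
        · have h1 : f n ≤ K₁ := Finset.le_sup (f := f) (Finset.mem_range.2 h)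
          have h2 := Pool.Agent.U59.HX.tr_sub_C (hf n hn)
          apply amono h2
          have h3 : (f n : ℝ) ≤ K₁ := by exact_mod_cast h1
          have h4 : (0 : ℝ) ≤ n := Nat.cast_nonneg n
          linarith
        · obtain ⟨k, hkn, hk⟩ := hN₀ n h
          have h2 := Pool.Agent.U59.HX.tr_sub_C hk
          apply amono h2
          have h3 : (k : ℝ) ≤ n := by exact_mod_cast hkn
          have h4 : (0 : ℝ) ≤ K₁ := Nat.cast_nonneg _
          linarith
      refine ⟨C ^ (100 / 3 : ℝ) * (K₁ + 5), fun ε hε hε1 => ?_⟩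
      have hCε1 : 1 ≤ C / ε := by rw [le_div_iff₀ hε]; linarith
      have hCε : 0 < C / ε := by positivity
      set W : ℝ := (C / ε) ^ (50 / 3 : ℝ) with hW
      have hW1 : 1 ≤ W := Real.one_le_rpow hCε1 (by norm_num)
      have hK0 : (0 : ℝ) ≤ K₁ := Nat.cast_nonneg _
      have h1 := r3 ε (W * (K₁ + 5)) hε (by positivity) (by
        intro z hz hzW
        apply amono (hbd z hz)
        have : (K₁ : ℝ) + 4 ≤ W * (K₁ + 4) := le_mul_of_one_le_left (by positivity) hW1
        nlinarith)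
      apply amono h1
      rw [← hW]
      have e1 : W * (W * (K₁ + 5)) = (C / ε) ^ (100 / 3 : ℝ) * (K₁ + 5) := by
        rw [← mul_assoc]
        congr 1
        rw [hW, ← Real.rpow_add hCε]
        norm_num
      rw [e1, Real.div_rpow hC0.le hε.le]
      have h2 : ε ^ (34 : ℝ) ≤ ε ^ (100 / 3 : ℝ) :=
        Real.rpow_le_rpow_of_exponent_ge hε hε1 (by norm_num)
      have h3 : 0 < ε ^ (34 : ℝ) := Real.rpow_pos_of_pos hε _
      rw [Real.rpow_neg hε.le]
      calc C ^ (100 / 3 : ℝ) / ε ^ (100 / 3 : ℝ) * (K₁ + 5)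
          ≤ C ^ (100 / 3 : ℝ) / ε ^ (34 : ℝ) * (K₁ + 5) := by
            apply mul_le_mul_of_nonneg_right _ (by positivity)
            exact div_le_div_of_nonneg_left (by positivity) h3 h2
        _ = _ := by rw [div_eq_mul_inv]; ring

end Pool.Agent.Results.MP_e43fce_nt.HittingDensities
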