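import Mathlib
import Pool.Agent.U307.LR.F
import Pool.Agent.Results.MP_e43fce_nt.MersenneExceptions

set_option autoImplicit false

/-!
# Total stopping times near the terms of linear recurrences

A sequence of integers is called smooth if, for some step `M`, its `k`-th differences with step `M` are
divisible by `4 ^ k`, for all `k`. The smooth sequences form a ring, which contains every linear
recurrence with odd last coefficient (like the Fibonacci numbers, all polynomials, all `b ^ n` with `b` odd)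
and every Newton series `∑ c_j n (n - 1) ... (n - j + 1)`. A smooth sequence is spread modulo powers of two
if and only if it is constant on no arithmetic progression. Hence the total stopping time is constant
on long intervals around almost all terms of such a sequence.
-/

namespace Pool.Agent.Results.MP_e43fce_nt.LinearRecurrences

open Filter Topology

/-- The Collatz function. -/
def C (n : ℕ) : ℕ := if n % 2 = 0 then n / 2 else 3 * n + 1

/-- The total stopping time: the least `k` with `C^k n = 1`, and `⊤ = ∞` if there is none. -/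
noncomputable def l (n : ℕ) : ℕ∞ := sInf {k : ℕ∞ | ∃ j : ℕ, C^[j] n = 1 ∧ k = j}

/-- The sequence `x` is spread modulo powers of two: there is `δ > 0` such that for every `ε > 0` there
are `η > 0` and `N₀` such that, for `N ≥ N₀` and `2 ^ t ≤ N ^ δ`, at most `η 2 ^ t` classes modulo `2 ^ t`
contain together at most `ε N` of the integers `x n`, `1 ≤ n ≤ N`. -/
def Spread (x : ℕ → ℤ) : Prop :=
  ∃ δ : ℝ, 0 < δ ∧ ∀ ε : ℝ, 0 < ε → ∃ η : ℝ, 0 < η ∧ ∃ N₀ : ℕ, ∀ N : ℕ, N₀ ≤ N →
    ∀ t : ℕ, (2 : ℝ) ^ t ≤ (N : ℝ) ^ δ → ∀ A : Finset ℤ, (A.card : ℝ) ≤ η * 2 ^ t →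
      (({n | 1 ≤ n ∧ n ≤ N ∧ ∃ a ∈ A, x n ≡ a [ZMOD 2 ^ t]} : Set ℕ).ncard : ℝ) ≤ ε * N

/-- `P n` holds for almost all `n`, in the sense of natural density. -/
def AlmostAll (P : ℕ → Prop) : Prop :=
  Tendsto (fun N : ℕ => (({n | 1 ≤ n ∧ n ≤ N ∧ ¬ P n} : Set ℕ).ncard : ℝ) / N) atTop (𝓝 0)

/-- The range: `W n = √ log n / (log log n) ^ 17`. -/
noncomputable def W (n : ℕ) : ℝ := √ (Real.log n) / (Real.log (Real.log n)) ^ 17

/-- The linear recurrence `u (n + d) = c 0 u (n) + ... + c (d - 1) u (n + d - 1)` with `c 0` odd. -/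
def OddRec (u : ℕ → ℤ) : Prop :=
  ∃ (d : ℕ) (c : ℕ → ℤ), 1 ≤ d ∧ Odd (c 0) ∧ ∀ n, u (n + d) = ∑ i ∈ Finset.range d, c i * u (n + i)

/-- `u` is smooth: for some step `M ≥ 1`, `4 ^ k` divides all the `k`-th differences of `u` with step `M`,
for every `k`. -/
def Smooth (u : ℕ → ℤ) : Prop :=
  ∃ M : ℕ, 1 ≤ M ∧ ∀ k n : ℕ,
    (4 : ℤ) ^ k ∣ ∑ j ∈ Finset.range (k + 1), (-1) ^ (k - j) * (k.choose j : ℤ) * u (n + j * M)

/-- `u` is constant on no arithmetic progression. -/
def NoConst (u : ℕ → ℤ) : Prop := ∀ a q : ℕ, 1 ≤ q → ∃ m, u (a + q * m) ≠ u a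

open Pool.Agent.Results.MP_e43fce_nt.MersenneExceptions in
theorem sp_iff (x : ℕ → ℤ) : Spread x ↔ Pool.Agent.Y967.CM.Spread x := spread_iff x

theorem AlmostAll.mono {P Q : ℕ → Prop} (h : AlmostAll P) (hPQ : ∀ n, P n → Q n) : AlmostAll Q :=
  Pool.Agent.Results.MP_e43fce_nt.MersenneExceptions.AlmostAll.mono h hPQ

theorem AlmostAll.and {P Q : ℕ → Prop} (h : AlmostAll P) (h' : AlmostAll Q) :
    AlmostAll (fun n => P n ∧ Q n) := by
  classical
  unfold AlmostAll at *
  have h3 := h.add h'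
  rw [add_zero] at h3
  refine squeeze_zero (fun N => by positivity) (fun N => ?_) h3
  rw [← add_div]
  apply div_le_div_of_nonneg_right _ (Nat.cast_nonneg N)
  have h4 : ({n | 1 ≤ n ∧ n ≤ N ∧ ¬ (P n ∧ Q n)} : Set ℕ) ⊆
      {n | 1 ≤ n ∧ n ≤ N ∧ ¬ P n} ∪ {n | 1 ≤ n ∧ n ≤ N ∧ ¬ Q n} := by
    rintro n ⟨h1, h2, h5⟩
    rw [not_and_or] at h5
    rcases h5 with h5 | h5
    · left; exact ⟨h1, h2, h5⟩
    · right; exact ⟨h1, h2, h5⟩
  have hfin : ∀ R : ℕ → Prop, ({n | 1 ≤ n ∧ n ≤ N ∧ R n} : Set ℕ).Finite := fun R =>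
    (Set.finite_Icc 1 N).subset fun n hn => ⟨hn.1, hn.2.1⟩
  have h5 := (Set.ncard_le_ncard h4 ((hfin _).union (hfin _))).trans (Set.ncard_union_le _ _)
  exact_mod_cast h5

/-- (1) Every linear recurrence with odd last coefficient is smooth, and so is every Newton series
`∑ c_j n (n - 1) ... (n - j + 1)` with integers `c_j`; sums and products of smooth sequences are smooth.
(2) A smooth sequence `u` is spread if and only if it is constant on no arithmetic progression, and then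
`u (e n)` is spread for every spread sequence `e` of natural numbers.
Let the sequence of natural numbers `x` be smooth and constant on no arithmetic progression, and let the
sequence of natural numbers `e` be spread, for example the sequence of the primes.
(3) For almost all `n`, if the trajectory of a natural number `z` is at time `k` within distance
`exp (W n)` of one of the numbers `3 ^ i x (e n)`, `i ≤ W n`, then `l z + i = k + l (x (e n))` (both may be
infinite); (4) for almost all `n` the function `l` is constant on the interval of the `z` with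
`|z - x (e n)| ≤ exp (W n)`. (5) For every `a ≥ 1`, for almost all `n`, with `m = x (e n)`, for all
`j ≤ W n`: `l (3 ^ (m + j) a) + j = l (3 ^ m a)` and `l (2 ^ (m + j) a - 1) = l (2 ^ m a - 1) + j`; so if
`l y > y` for `y = 2 ^ (m + j) a - 1`, `j ≤ W n`, then `l y > 2 ^ j y - j` for `y = 2 ^ m a - 1`.
(6) The Fibonacci numbers are smooth and constant on no arithmetic progression. -/
theorem result :
    ((∀ u : ℕ → ℤ, OddRec u → Smooth u) ∧
      (∀ c : ℕ → ℤ, Smooth (fun n => ∑ j ∈ Finset.range (n + 1), c j * (n.descFactorial j : ℤ))) ∧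
      (∀ u v : ℕ → ℤ, Smooth u → Smooth v → Smooth (fun n => u n + v n) ∧ Smooth (fun n => u n * v n))) ∧
    (∀ u : ℕ → ℤ, Smooth u → (Spread u ↔ NoConst u) ∧
      ∀ e : ℕ → ℕ, NoConst u → Spread (fun n => (e n : ℤ)) → Spread (fun n => u (e n))) ∧
    (∀ x e : ℕ → ℕ, Smooth (fun n => (x n : ℤ)) → NoConst (fun n => (x n : ℤ)) →
      Spread (fun n => (e n : ℤ)) →
      AlmostAll (fun n => ∀ z k i : ℕ, (i : ℝ) ≤ W n →
        |((C^[k] z : ℕ) : ℝ) - 3 ^ i * x (e n)| ≤ Real.exp (W n) → l z + i = k + l (x (e n))) ∧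
      AlmostAll (fun n => ∀ z : ℕ, |(z : ℝ) - x (e n)| ≤ Real.exp (W n) → l z = l (x (e n))) ∧
      ∀ a : ℕ, 1 ≤ a → AlmostAll (fun n => ∀ m j : ℕ, m = x (e n) → (j : ℝ) ≤ W n →
        l (3 ^ (m + j) * a) + j = l (3 ^ m * a) ∧ l (2 ^ (m + j) * a - 1) = l (2 ^ m * a - 1) + j ∧
        (((2 ^ (m + j) * a - 1 : ℕ) : ℕ∞) < l (2 ^ (m + j) * a - 1) →
          ((2 ^ j * (2 ^ m * a - 1) : ℕ) : ℕ∞) < l (2 ^ m * a - 1) + j))) ∧
    (Smooth (fun n => (Nat.fib n : ℤ)) ∧ NoConst (fun n => (Nat.fib n : ℤ)) ∧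
      Spread (fun n => (n : ℤ)) ∧ Spread (fun n => ((Nat.nth Nat.Prime n : ℕ) : ℤ))) := by
  obtain ⟨⟨hid, hpr, -, -⟩, hH1, hH2, -, -⟩ := Pool.Agent.Results.MP_e43fce_nt.MersenneExceptions.result
  have hcomp : ∀ u : ℕ → ℤ, Smooth u → ∀ e : ℕ → ℕ, NoConst u → Spread (fun n => (e n : ℤ)) →
      Spread (fun n => u (e n)) := fun u hu e hne he =>
    (sp_iff _).2 (Pool.Agent.U307.LR.Smooth.comp hu hne ((sp_iff _).1 he))
  refine ⟨⟨fun u hu => Pool.Agent.U307.LR.OddRec.smooth hu, fun c => Pool.Agent.U307.LR.newton_smooth c,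
    fun u v hu hv => ⟨Pool.Agent.U307.LR.Smooth.add hu hv, Pool.Agent.U307.LR.Smooth.mul hu hv⟩⟩,
    fun u hu => ⟨(sp_iff u).trans (Pool.Agent.U307.LR.Smooth.spread_iff hu), fun e hne he => hcomp u hu e hne he⟩,
    fun x e hx hne he => ?_, Pool.Agent.U307.LR.fib_odd.smooth, Pool.Agent.U307.LR.fib_noConst, hid, hpr⟩
  have hs : Spread (fun n => ((x (e n) : ℕ) : ℤ)) := hcomp _ hx e hne he
  have h1 : AlmostAll (fun n => ∀ z k i : ℕ, (i : ℝ) ≤ W n →
        |((C^[k] z : ℕ) : ℝ) - 3 ^ i * x (e n)| ≤ Real.exp (W n) → l z + i = k + l (x (e n))) :=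
    hH1 (fun n => x (e n)) hs
  have hW : AlmostAll (fun n => 0 ≤ W n) := by
    have h := Pool.Agent.Results.MP_e43fce_nt.MersenneExceptions.dat_all (x := fun n => n) hid one_pos
    exact AlmostAll.mono h fun n hn => zero_le_one.trans hn.2
  refine ⟨h1, ?_, fun a ha => ?_⟩
  · refine AlmostAll.mono (AlmostAll.and hW h1) ?_
    rintro n ⟨hw, g1⟩ z hz
    have g2 := g1 z 0 0 (by push_cast; exact hw) (by
      rw [Function.iterate_zero, id_eq, pow_zero, one_mul]; exact hz)
    rwa [Nat.cast_zero, add_zero, zero_add] at g2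
  · refine AlmostAll.mono (hH2 a (fun n => x (e n)) ha hs) ?_
    intro n hn m j hm hj
    obtain ⟨g1, g2⟩ := hn m j hm hj
    refine ⟨g1, g2, fun h => ?_⟩
    have g3 : l (2 ^ (m + j) * a - 1) = l (2 ^ m * a - 1) + j := g2
    rw [g3] at h
    refine lt_of_le_of_lt ?_ h
    have g4 : 2 ^ j * (2 ^ m * a - 1) ≤ 2 ^ (m + j) * a - 1 := by
      rw [Nat.mul_sub, pow_add]
      have g5 : 2 ^ j * (2 ^ m * a) = 2 ^ m * 2 ^ j * a := by ring
      rw [g5]
      have g6 : 1 ≤ 2 ^ j := Nat.one_le_two_pow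
      omega
    exact_mod_cast g4

end Pool.Agent.Results.MP_e43fce_nt.LinearRecurrences
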