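import Pool.Agent.U923.CZ.All2

/-!
SQUAREFREE TOTAL STOPPING TIMES.

Author: helper923. Starts from the local limit law of the total stopping time (starting library,
Pool/Agent/R468/GL and MF, helper468). New here (Pool/Agent/U923/CZ): the transfer principle for the local
limit laws with a periodic factor, uniformly in the size of the stopping time, and the squarefree integers
in the intervals `[y, y + H)`, `H ≥ ε √y`, also twisted by characters.
-/

set_option autoImplicit false

namespace Pool.Agent.Results.MP_e43fce_nt.SquarefreeTimes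

open Filter Topology

/-- the Collatz function -/
def C (n : ℕ) : ℕ := if n % 2 = 0 then n / 2 else 3 * n + 1

/-- `n` reaches `1`: `l(n)` is finite -/
def Reaches (n : ℕ) : Prop := ∃ k : ℕ, C^[k] n = 1

/-- the total stopping time `l(n) = min {k ≥ 0 : C^k(n) = 1}` (used only for the `n` which reach `1`) -/
noncomputable def l (n : ℕ) : ℕ := sInf {k : ℕ | C^[k] n = 1}

/-- the positive integers with the property `P` have the natural density `c` -/
def HasDensity (P : ℕ → Prop) (c : ℝ) : Prop :=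
  Tendsto (fun M : ℕ => ({n : ℕ | 1 ≤ n ∧ n ≤ M ∧ P n}.ncard : ℝ) / M) atTop (𝓝 c)

open Pool.Agent.U923.CZ Pool.Agent.R468.GL Pool.Agent.R468.MF Pool.Agent.H499R2.ND Pool.Agent.H499R2.LT in
/-- SQUAREFREE TOTAL STOPPING TIMES. There is `δ` with

* `0 < δ ≤ 1`, the `n` with `l(n)` finite have the natural density `δ`, and `δ = 1` iff `l(n)` is finite
  for all `n ≥ 1`;
* the `n` with finite squarefree `l(n)` have the natural density `(6 / π²) δ`;
* the squarefree values have the same proportion `6 / π²` at all sizes: uniformly for the integers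
  `κ ≥ 0`, the number of the `n ≤ x` with finite squarefree `l(n) ≤ κ` is `6 / π²` times the number of the
  `n ≤ x` with `l(n) ≤ κ`, up to `o(x)`. -/
theorem result : ∃ δ : ℝ, 0 < δ ∧ δ ≤ 1 ∧ (δ = 1 ↔ ∀ n : ℕ, 1 ≤ n → Reaches n) ∧ HasDensity Reaches δ ∧
    HasDensity (fun n => Reaches n ∧ Squarefree (l n)) (6 / Real.pi ^ 2 * δ) ∧
    ∀ ε : ℝ, 0 < ε → ∃ X₀ : ℝ, ∀ x : ℝ, X₀ ≤ x → ∀ κ : ℕ,
      |({n : ℕ | 1 ≤ n ∧ (n : ℝ) ≤ x ∧ Reaches n ∧ l n ≤ κ ∧ Squarefree (l n)}.ncard : ℝ) -
        6 / Real.pi ^ 2 * {n : ℕ | 1 ≤ n ∧ (n : ℝ) ≤ x ∧ Reaches n ∧ l n ≤ κ}.ncard| ≤ ε * x := by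
  classical
  obtain ⟨δ, Ψ, h0, h1, h2, L, _⟩ := main_all PC
  obtain ⟨k0, k1, k2, k3⟩ := dens_one h1
  have hlev : LevN (NA PC 1 1 {1}) (hset C) (hit C) := levn_hit C PC lv_C
  have hμ : 0 < A0 PC / Pool.Agent.R468.LL.lam := by
    have := Pool.Agent.R468.LL.lam_pos
    rw [A0_PC]; positivity
  refine ⟨δ, k0, k1, ?_, Dn_iff (fun n _ => BasC n) k3, ?_, ?_⟩
  · rw [k2]
    exact forall₂_congr fun n _ => BasC n
  · have h3 := sqf_fun L hμ hlev
    rw [mul_comm] at h3
    exact hd_of C (Q := fun n => Squarefree (l n)) (h3.congr fun x => by rfl)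
  · intro ε hε
    obtain ⟨X₀, hX⟩ := sqf_cut L hμ one_pos hlev.toC ε hε
    refine ⟨X₀, fun x hx κ => ?_⟩
    have h3 := hX x hx κ
    have e1 := cut_ncard C x κ (fun n => Squarefree (hit C n))
    have e2 := cut_ncard' C x κ
    rw [← e1, ← e2] at h3
    exact h3

end Pool.Agent.Results.MP_e43fce_nt.SquarefreeTimes
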